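import Pool.Agent.DRC.Asm
import Pool.Agent.NEX.Main
import Pool.Agent.CYP.Main2

set_option autoImplicit false

/-!
# Polynomial relations and torsors for the Dwork pencils, with the same exceptional set
-/

open scoped BigOperators Topology

namespace Pool.Agent.CYH

open Pool.Agent.DRC
open Pool.Agent.CYP (Rm Qm Tors Per)
open Pool.Agent.UBD (Stmt_UB)
open Pool.Agent.CYD (Stmt_FinY)

noncomputable section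

/-- The statement: all relations of degree at most `D`, and all torsors, over all number fields
of degree at most `D`. -/
def Stmt_Both : Prop := ∀ (nF : ℕ) (G : Fin nF → ℕ), (∀ a, 0 < G a) →
  ∀ (r : ℕ) (φ : Fin r → Fin nF) (D : ℕ), ∃ δ : ℝ, 0 < δ ∧ ∃ n₀ : ℕ, ∀ n : ℕ, n₀ ≤ n →
  ∃ S : Finset ℚ, S.card ≤ r * (1 + ∑ a, G a * (2 * G a + 1)) ∧
    ∀ ρ : Fin r → ℚ, Function.Injective ρ →
    (∀ i, 0 < ρ i ∧ ρ i ∉ S ∧ ((ρ i).num : ℝ) ≤ (n : ℝ) ^ δ ∧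
      ((ρ i).den : ℝ) ≤ (n : ℝ) ^ δ) →
    (∀ i, ‖((ρ i / n : ℚ) : ℂ)‖ < 1) ∧
    ∀ (L : IntermediateField ℚ ℂ), FiniteDimensional ℚ L → Module.finrank ℚ L ≤ D →
    (∀ P : MvPolynomial (Option (Σ i : Fin r, Fin (2 * G (φ i)) × Fin (2 * G (φ i)))) L,
      P.totalDegree ≤ D →
      MvPolynomial.aeval (CYP.tpt (n := fun i => 2 * G (φ i)) (2 * Real.pi * Complex.I)
        (fun i => Per (2 * G (φ i)) ((ρ i / n : ℚ) : ℂ))) P = (0 : ℂ) →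
      ∀ (lam : ℂ) (X : ∀ i, Matrix (Fin (2 * G (φ i))) (Fin (2 * G (φ i))) ℂ), lam ≠ 0 →
        (∀ i, Tors (2 * G (φ i)) ((ρ i / n : ℚ) : ℂ) lam (X i)) →
        MvPolynomial.aeval (CYP.tpt (n := fun i => 2 * G (φ i)) lam X) P = (0 : ℂ)) ∧
    ∀ H : Subgroup (Aut (fun l => 2 * G (φ l))),
      IsTorsor (fun l => 2 * G (φ l)) (fun l => ((ρ l / n : ℚ) : ℂ)) L H →
      ∀ x : Aut (fun l => 2 * G (φ l)), (∀ l, SimilR (2 * G (φ l)) ((ρ l / n : ℚ) : ℂ) (x.1 : ℂ)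
        (x.2 l : Matrix (Fin (2 * G (φ l))) (Fin (2 * G (φ l))) ℂ)) → x ∈ H

theorem both_proof (hF : Stmt_FinY) (hUB : Stmt_UB)
    (hQ : ∀ n, Even n → (Qm n ℂ).det ≠ 0)
    (hT : ∀ (n : ℕ), 0 < n → Even n → ∀ ψ : ℂ, ‖ψ‖ < 1 →
      Tors n ψ (2 * Real.pi * Complex.I) (Per n ψ)) : Stmt_Both := by
  intro nF G hG r φ D
  obtain ⟨D₀, hD₀⟩ := hUB r (fun l => G (φ l)) (wt (fun l => G (φ l))) (fun l => hG (φ l))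
  obtain ⟨δ, hδ, n₀, hn⟩ := hF nF G hG r φ (max D D₀)
  refine ⟨δ, hδ, n₀, fun n hn' => ?_⟩
  obtain ⟨S, hS, hρ⟩ := hn n hn'
  refine ⟨S, hS, fun ρ h1 h2 => ?_⟩
  obtain ⟨hψ, hrel⟩ := hρ ρ h1 h2
  refine ⟨hψ, fun L hLf hLD => ⟨fun P hP => hrel L hLf (hLD.trans (le_max_left _ _)) P
    (hP.trans (le_max_left _ _)), ?_⟩⟩
  have hLalg : ∀ a ∈ L, IsAlgebraic ℚ a := by
    intro a ha
    have h1 : IsAlgebraic ℚ (⟨a, ha⟩ : L) := Algebra.IsAlgebraic.isAlgebraic _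
    exact h1.algebraMap (A := ℂ)
  have hq : ∀ l, (ρ l / n) ^ (2 * G (φ l) + 1) ≠ 1 := by
    intro l h0
    have h3 : (((ρ l / n : ℚ) : ℂ)) ^ (2 * G (φ l) + 1) = 1 := by
      rw [← Rat.cast_pow, h0, Rat.cast_one]
    have h4 := congrArg norm h3
    rw [norm_pow, norm_one] at h4
    exact absurd h4 (ne_of_lt (pow_lt_one₀ (norm_nonneg _) (hψ l) (Nat.succ_ne_zero _)))
  choose F E hFE hEF hrl htri using fun l => cyFQ (G (φ l)) (ρ l / n) (hq l)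
  let B : Bas (fun l => G (φ l)) (fun l => ρ l / n) := ⟨F, E, hFE, hEF, hrl, htri⟩
  have hTl : ∀ l, Tors (2 * G (φ l)) ((ρ l / n : ℚ) : ℂ) (2 * Real.pi * Complex.I)
      (Per (2 * G (φ l)) ((ρ l / n : ℚ) : ℂ)) := fun l =>
    hT _ (Nat.mul_pos two_pos (hG (φ l))) (even_two_mul _) _ (hψ l)
  have hrel' := fun P hP => hrel L hLf (hLD.trans (le_max_left _ _)) P
    (le_trans hP (le_max_right D D₀))
  exact fun H hH x hx => cyTorsor B hTl hQ D₀ hD₀ DRD.tr L hLalg hrel' H hH x hx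

theorem both : Stmt_Both :=
  both_proof CYD.finy UBD.ub CYP.Main.qdet (fun n hn he ψ hψ => by
    have h := (CYP.Main.final 1 (fun _ => n) (fun _ => ⟨hn, he⟩)).1 0 ψ hψ
    exact h)

/-- The final statement. -/
def Stmt_Uni : Prop := ∀ (nF : ℕ) (G : Fin nF → ℕ), (∀ a, 0 < G a) →
  ∀ (r : ℕ) (φ : Fin r → Fin nF) (D : ℕ), ∃ δ : ℝ, 0 < δ ∧ ∃ n₀ : ℕ, ∀ n : ℕ, n₀ ≤ n →
  ∃ S : Finset ℚ, S.card ≤ r * (1 + ∑ a, G a * (2 * G a + 1)) ∧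
    ∀ ρ : Fin r → ℚ, Function.Injective ρ →
    (∀ i, 0 < ρ i ∧ ((ρ i).num : ℝ) ≤ (n : ℝ) ^ δ ∧ ((ρ i).den : ℝ) ≤ (n : ℝ) ^ δ) →
    (∀ i, Tors (2 * G (φ i)) ((ρ i / n : ℚ) : ℂ) (2 * Real.pi * Complex.I)
      (Per (2 * G (φ i)) ((ρ i / n : ℚ) : ℂ))) ∧
    ∀ (L : IntermediateField ℚ ℂ), FiniteDimensional ℚ L → Module.finrank ℚ L ≤ D →
    ((∀ i, ρ i ∉ S) →
      ∀ P : MvPolynomial (Option (Σ i : Fin r, Fin (2 * G (φ i)) × Fin (2 * G (φ i)))) L,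
      P.totalDegree ≤ D →
      MvPolynomial.aeval (CYP.tpt (n := fun i => 2 * G (φ i)) (2 * Real.pi * Complex.I)
        (fun i => Per (2 * G (φ i)) ((ρ i / n : ℚ) : ℂ))) P = (0 : ℂ) →
      ∀ (lam : ℂ) (X : ∀ i, Matrix (Fin (2 * G (φ i))) (Fin (2 * G (φ i))) ℂ), lam ≠ 0 →
        (∀ i, Tors (2 * G (φ i)) ((ρ i / n : ℚ) : ℂ) lam (X i)) →
        MvPolynomial.aeval (CYP.tpt (n := fun i => 2 * G (φ i)) lam X) P = (0 : ℂ)) ∧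
    ((∀ i, ρ i ∉ S) ∨ (∀ a, 2 ≤ G a) → ∀ H : Subgroup (Aut (fun l => 2 * G (φ l))),
      IsTorsor (fun l => 2 * G (φ l)) (fun l => ((ρ l / n : ℚ) : ℂ)) L H →
      ∀ x : Aut (fun l => 2 * G (φ l)), (∀ l, SimilR (2 * G (φ l)) ((ρ l / n : ℚ) : ℂ) (x.1 : ℂ)
        (x.2 l : Matrix (Fin (2 * G (φ l))) (Fin (2 * G (φ l))) ℂ)) → x ∈ H)

theorem norm_lt (n : ℕ) (hn : 2 ≤ n) (δ : ℝ) (hδ : δ ≤ 1 / 2) (q : ℚ) (hq : 0 < q)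
    (h : (q.num : ℝ) ≤ (n : ℝ) ^ δ) : ‖((q / n : ℚ) : ℂ)‖ < 1 := by
  have hn0 : (1 : ℝ) < n := by exact_mod_cast (show 1 < n by omega)
  have h1 : (q : ℝ) ≤ (q.num : ℝ) := by
    have h3 : q ≤ (q.num : ℚ) := by
      have h4 : (q.num : ℚ) = q * q.den := (Rat.mul_den_eq_num q).symm
      rw [h4]
      have h5 : (1 : ℚ) ≤ (q.den : ℚ) := by exact_mod_cast q.pos
      nlinarith
    exact_mod_cast h3
  have h2 : (n : ℝ) ^ δ < n := by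
    have := Real.rpow_lt_rpow_of_exponent_lt hn0 (show δ < 1 by linarith)
    rwa [Real.rpow_one] at this
  have h6 : ((q / n : ℚ) : ℂ) = ((q / n : ℝ) : ℂ) := by push_cast; rfl
  have hq' : (0 : ℝ) < q := by exact_mod_cast hq
  rw [h6, Complex.norm_real, Real.norm_of_nonneg (by positivity), div_lt_one (by linarith)]
  linarith

theorem uni : Stmt_Uni := by
  intro nF G hG r φ D
  obtain ⟨δ₁, hδ₁, n₁, h₁⟩ := both nF G hG r φ D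
  have key : ∃ δ₂ : ℝ, 0 < δ₂ ∧ ∃ n₂ : ℕ, ∀ n : ℕ, n₂ ≤ n →
      ∀ ρ : Fin r → ℚ, Function.Injective ρ →
      (∀ i, 0 < ρ i ∧ ((ρ i).num : ℝ) ≤ (n : ℝ) ^ δ₂ ∧ ((ρ i).den : ℝ) ≤ (n : ℝ) ^ δ₂) →
      ∀ (L : IntermediateField ℚ ℂ), FiniteDimensional ℚ L → Module.finrank ℚ L ≤ D →
      (∀ a, 2 ≤ G a) → ∀ H : Subgroup (Aut (fun l => 2 * G (φ l))),
        IsTorsor (fun l => 2 * G (φ l)) (fun l => ((ρ l / n : ℚ) : ℂ)) L H →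
        ∀ x : Aut (fun l => 2 * G (φ l)),
          (∀ l, SimilR (2 * G (φ l)) ((ρ l / n : ℚ) : ℂ) (x.1 : ℂ)
            (x.2 l : Matrix (Fin (2 * G (φ l))) (Fin (2 * G (φ l))) ℂ)) → x ∈ H := by
    by_cases h2 : ∀ a, 2 ≤ G a
    · obtain ⟨δ, hδ, n₀, h⟩ := NEX.fiy_t nF G h2 r φ D
      exact ⟨δ, hδ, n₀, fun n hn ρ h3 h4 L hL hLD _ => (h n hn ρ h3 h4 L hL hLD).1⟩
    · exact ⟨1, one_pos, 0, fun n _ ρ _ _ L _ _ h3 => absurd h3 h2⟩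
  obtain ⟨δ₂, hδ₂, n₂, h₂⟩ := key
  have hmono : ∀ n : ℕ, 1 ≤ n → ∀ δ δ' : ℝ, δ ≤ δ' → (n : ℝ) ^ δ ≤ (n : ℝ) ^ δ' :=
    fun n hn δ δ' h => Real.rpow_le_rpow_of_exponent_le (by exact_mod_cast hn) h
  refine ⟨min (min δ₁ δ₂) (1 / 2), lt_min (lt_min hδ₁ hδ₂) (by norm_num),
    max (max n₁ n₂) 2, fun n hn => ?_⟩
  have hn1 : n₁ ≤ n := ((le_max_left _ _).trans (le_max_left _ _)).trans hn
  have hn2 : n₂ ≤ n := ((le_max_right _ _).trans (le_max_left _ _)).trans hn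
  have hn3 : 2 ≤ n := (le_max_right _ _).trans hn
  have hn4 : 1 ≤ n := one_le_two.trans hn3
  have hT : ∀ (n : ℕ), 0 < n → Even n → ∀ ψ : ℂ, ‖ψ‖ < 1 →
      Tors n ψ (2 * Real.pi * Complex.I) (Per n ψ) := fun n hn he ψ hψ => by
    have h := (CYP.Main.final 1 (fun _ => n) (fun _ => ⟨hn, he⟩)).1 0 ψ hψ
    exact h
  have hd1 : min (min δ₁ δ₂) (1 / 2) ≤ δ₁ := (min_le_left _ _).trans (min_le_left _ _)
  have hd2 : min (min δ₁ δ₂) (1 / 2) ≤ δ₂ := (min_le_left _ _).trans (min_le_right _ _)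
  obtain ⟨S, hS, hρ⟩ := h₁ n hn1
  refine ⟨S, hS, fun ρ hinj hb => ⟨fun i => ?_, fun L hL hLD => ?_⟩⟩
  · exact hT _ (Nat.mul_pos two_pos (hG (φ i))) (even_two_mul _) _
      (norm_lt n hn3 _ (min_le_right _ _) (ρ i) (hb i).1 (hb i).2.1)
  have hb1 : ∀ i, 0 < ρ i ∧ ((ρ i).num : ℝ) ≤ (n : ℝ) ^ δ₁ ∧ ((ρ i).den : ℝ) ≤ (n : ℝ) ^ δ₁ :=
    fun i => ⟨(hb i).1, (hb i).2.1.trans (hmono n hn4 _ _ hd1),
      (hb i).2.2.trans (hmono n hn4 _ _ hd1)⟩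
  have hb2 : ∀ i, 0 < ρ i ∧ ((ρ i).num : ℝ) ≤ (n : ℝ) ^ δ₂ ∧ ((ρ i).den : ℝ) ≤ (n : ℝ) ^ δ₂ :=
    fun i => ⟨(hb i).1, (hb i).2.1.trans (hmono n hn4 _ _ hd2),
      (hb i).2.2.trans (hmono n hn4 _ _ hd2)⟩
  have hb1' : (∀ i, ρ i ∉ S) → ∀ i, 0 < ρ i ∧ ρ i ∉ S ∧ ((ρ i).num : ℝ) ≤ (n : ℝ) ^ δ₁ ∧
      ((ρ i).den : ℝ) ≤ (n : ℝ) ^ δ₁ := fun h i => ⟨(hb1 i).1, h i, (hb1 i).2.1, (hb1 i).2.2⟩
  refine ⟨fun h => ?_, ?_⟩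
  · exact ((hρ ρ hinj (hb1' h)).2 L hL hLD).1
  · rintro (h | h)
    · exact ((hρ ρ hinj (hb1' h)).2 L hL hLD).2
    · exact h₂ n hn2 ρ hinj hb2 L hL hLD h

end

end Pool.Agent.CYH
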